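import Pool.Agent.Lib.GeoOrig.CurveGerm

/-!
# All sheaves on configuration spaces of curves are built from sheaves on spaces of bounded type

In the application `P` is the tame fundamental group of the space `X` of configurations of `n - m`
points on a smooth affine curve over a finite field, of genus `g` and with `p > 0` points at
infinity, `m = 2 g + p - 1`, or of a relative configuration space of a family of such curves.
-/

open Matrix Pool.Agent.BraidRep

namespace Pool.Agent.Results.MP_80bee4_ag.BoundedType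

/-- Let `P` be a profinite group and let `A i j`, for `i < j` and `m ≤ j`, be elements of `P` which
satisfy Bellingeri's relations between the standard generators of the fundamental group of the
space of configurations of points on a surface of genus `g` with `m - 2 g + 1` punctures
(`i < 2 g`: handles, `2 g ≤ i < m`: all punctures but one, `i ≥ m`: moving points). Suppose that for
every moving point `v` the closed subgroup generated by the `A i v` and `A v i` is normal in `P`.

Every irreducible continuous `ρ : P → GL_r(ℚ̄_ℓ)` contains, on an open normal subgroup `U`, the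
twist by a continuous character `χ` of a tensor product `σ 0 ⊗ ⋯ ⊗ σ (k - 1)` of continuous
representations `σ a : U → SL_{d a}(ℚ̄_ℓ)`, `d a ≥ 2`, such that `∏ d a` divides `r` and the
following holds for each `a`.
* For every open subgroup `V`, the only subalgebras of the algebra of all `d a × d a` matrices
  normalised by `σ a (U ∩ V)` are the scalars and the whole algebra.
* There are a set `S a` of punctures and a set `T a` of moving points, with `|T a| ≤ 1` or
  `2 g + |S a| + |T a| ≤ 2 r`, such that `σ a` is trivial on the intersection of `U` with the closed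
  normal subgroup of `P` generated by the `A i j` such that `j` or a moving point `i` is not in
  `T a`, or `i` is a puncture which is not in `S a`.

The quotient of `P` by the last group is, in the application, the fundamental group of the space of
configurations of the points in `T a` on the curve with the punctures in `S a` and one more. -/
theorem result (ℓ : ℕ) [Fact ℓ.Prime] {P : Type*} [Group P] [TopologicalSpace P]
    [IsTopologicalGroup P] [CompactSpace P] [TotallyDisconnectedSpace P] {g m n r : ℕ}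
    (hr : 0 < r) (A : Fin n → Fin n → P) (hA : CurveBraid g m A)
    (hN : ∀ v : Fin n, m ≤ v.val →
      (Subgroup.closure {x | ∃ i, (i < v ∧ x = A i v) ∨ (v < i ∧ x = A v i)}).topologicalClosure.Normal)
    (ρ : P →* GL (Fin r) (PadicAlgCl ℓ)) (hρ : Continuous ρ)
    (hirr : ∀ W : Submodule (PadicAlgCl ℓ) (Fin r → PadicAlgCl ℓ),
      (∀ x, ∀ w ∈ W, (ρ x : Matrix (Fin r) (Fin r) (PadicAlgCl ℓ)) *ᵥ w ∈ W) →
        W = ⊥ ∨ W = ⊤) :
    ∃ (U : Subgroup P) (k : ℕ) (d : Fin k → ℕ)
      (σ : ∀ a, U →* SpecialLinearGroup (Fin (d a)) (PadicAlgCl ℓ)) (χ : U →* (PadicAlgCl ℓ)ˣ),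
      IsOpen (U : Set P) ∧ U.Normal ∧ (∀ a, 2 ≤ d a ∧ Continuous (σ a)) ∧ Continuous χ ∧
      ∏ a, d a ∣ r ∧
      (∃ J : ((∀ a, Fin (d a)) → PadicAlgCl ℓ) →ₗ[PadicAlgCl ℓ] (Fin r → PadicAlgCl ℓ),
        Function.Injective J ∧ ∀ (x : U) (f : (∀ a, Fin (d a)) → PadicAlgCl ℓ),
          (ρ x : Matrix (Fin r) (Fin r) (PadicAlgCl ℓ)) *ᵥ J f =
            J (fun p => (χ x : PadicAlgCl ℓ) * ∑ q,
              (∏ a, (σ a x : Matrix (Fin (d a)) (Fin (d a)) (PadicAlgCl ℓ))
                (p a) (q a)) * f q)) ∧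
      (∀ a, ∀ V : Subgroup P, IsOpen (V : Set P) →
        ∀ B : Subalgebra (PadicAlgCl ℓ) (Matrix (Fin (d a)) (Fin (d a)) (PadicAlgCl ℓ)),
          (∀ x : U, (x : P) ∈ V → ∀ b ∈ B,
            (σ a x : Matrix (Fin (d a)) (Fin (d a)) (PadicAlgCl ℓ)) * b *
              (σ a x⁻¹ : Matrix (Fin (d a)) (Fin (d a)) (PadicAlgCl ℓ)) ∈ B) →
          B = ⊥ ∨ B = ⊤) ∧
      ∀ a, ∃ S T : Finset (Fin n), (∀ i ∈ S, 2 * g ≤ i.val ∧ i.val < m) ∧
        (∀ v ∈ T, m ≤ v.val) ∧ (T.card ≤ 1 ∨ 2 * g + S.card + T.card ≤ 2 * r) ∧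
        ∀ x : U, (x : P) ∈ (Subgroup.normalClosure {x | ∃ i j, i < j ∧ m ≤ j.val ∧
          (j ∉ T ∨ (m ≤ i.val ∧ i ∉ T) ∨ (2 * g ≤ i.val ∧ i.val < m ∧ i ∉ S)) ∧
            x = A i j}).topologicalClosure → σ a x = 1 := by
  classical
  obtain ⟨V, hVo, hVn, k, d, f, hf, hdvd, χ, hχ1, hχmul, hχ0, hχc, ⟨J, hJ, hact⟩, hker, -⟩ :=
    Pool.Agent.GeoOrig.prime_main hr ρ hρ hirr
  let χ' : V →* (PadicAlgCl ℓ)ˣ := MonoidHom.toHomUnits
    { toFun := fun v => χ v
      map_one' := hχ1
      map_mul' := fun a b => hχmul a a.2 b b.2 }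
  have hχ'v : ∀ v : V, (χ' v : PadicAlgCl ℓ) = χ v := fun v => rfl
  have hpos : ∀ i, 0 < d i := fun i => by have := (hf i).1; omega
  refine ⟨V, k, d, fun i =>
    { toFun := fun g => ⟨f i g, (hf i).2.1.det g g.2⟩
      map_one' := Subtype.ext (hf i).2.1.rep.one
      map_mul' := fun a b => Subtype.ext ((hf i).2.1.rep.mul a a.2 b b.2) }, χ', hVo, hVn,
    fun i => ⟨(hf i).1, ?_⟩, ?_, hdvd, ⟨J, hJ, fun g w => ?_⟩, fun i W hW B hB => ?_,
    fun a => ?_⟩
  · exact ((hf i).2.1.rep.cont.domRestrict).subtype_mk _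
  · rw [Units.continuous_iff]
    have h1 : Continuous (fun v : V => χ v) := hχc.domRestrict
    refine ⟨h1, ?_⟩
    have h2 : (fun v : V => ((χ' v)⁻¹ : (PadicAlgCl ℓ)ˣ).val) = fun v : V => (χ v)⁻¹ := by
      funext v
      rw [Units.val_inv_eq_inv_val, hχ'v]
    show Continuous (fun v : V => ((χ' v)⁻¹ : (PadicAlgCl ℓ)ˣ).val)
    rw [h2]
    exact h1.inv₀ fun v => hχ0 v v.2
  · rw [hact g g.2 w]
    rfl
  · exact Pool.Agent.GeoOrig.sub_trivial (hpos i) hVo (hf i).2.1 (hf i).2.2 B hW
      fun g hg b hb => hB ⟨g, hg.1⟩ hg.2 b hb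
  · have hσ := (hf a).2.1
    set N₀ : Subgroup P := (Pool.Agent.GeoOrig.stab V hVo hVn (f a)).normalCore with hN₀
    have hset : ∀ v : Fin n, {x | ∃ i, (i < v ∧ x = A i v) ∨ (v < i ∧ x = A v i)} =
        {x | ∃ i, i ≠ v ∧ x = sy A i v} := by
      intro v
      ext x
      constructor
      · rintro ⟨i, ⟨h1, h2⟩ | ⟨h1, h2⟩⟩
        · exact ⟨i, h1.ne, by rw [sy_of_lt h1]; exact h2⟩
        · exact ⟨i, h1.ne', by rw [sy_of_gt h1]; exact h2⟩
      · rintro ⟨i, h1, h2⟩
        rcases lt_or_gt_of_ne h1 with h3 | h3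
        · exact ⟨i, Or.inl ⟨h3, by rw [h2, sy_of_lt h3]⟩⟩
        · exact ⟨i, Or.inr ⟨h3, by rw [h2, sy_of_gt h3]⟩⟩
    obtain ⟨S, T, a1, a2, a3, a4⟩ := hA.type (H := P ⧸ N₀) ρ (C := Set.univ)
      (fun _ _ _ _ => Set.mem_univ _) (fun _ _ _ => Set.mem_univ _) (skewOn_gl hr)
      (QuotientGroup.mk' N₀)
      (fun x hx => (QuotientGroup.eq_one_iff x).2
        (Pool.Agent.GeoOrig.germ_of_ker hσ ρ (fun v hv h1 => hker v hv h1 a) hx))
      (fun v hv => by
        have hNn := hN v hv
        rw [hset v] at hNn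
        set M : Subgroup P := Subgroup.closure {x | ∃ i, i ≠ v ∧ x = sy A i v} with hM
        rcases Pool.Agent.GeoOrig.dich (hpos a) hVo hσ (hf a).2.2 (N := M.topologicalClosure)
          (W := ⊤) isOpen_univ (fun g _ x hx => hNn.conj_mem x hx g) with
          ⟨V', -, hV'o, hV'⟩ | h
        · left
          intro i hi
          refine (QuotientGroup.eq_one_iff _).2 ?_
          apply Pool.Agent.GeoOrig.germ_of_trivial hσ hNn hV'o hV'
          exact Subgroup.le_topologicalClosure _ (Subgroup.subset_closure ⟨i, hi, rfl⟩)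
        · right
          intro y hy
          obtain ⟨z, rfl⟩ := QuotientGroup.mk'_surjective N₀ y
          refine (QuotientGroup.eq_one_iff z).2 ?_
          have hspan := h V hVo
          have hinf : (M.topologicalClosure ⊓ V ⊓ V : Subgroup P) =
              M.topologicalClosure ⊓ V := by
            rw [inf_assoc, inf_idem]
          rw [hinf] at hspan
          refine Pool.Agent.GeoOrig.germ_of_comm hσ hNn hspan fun x hx => ?_
          have hc : M ≤ (Subgroup.centralizer {QuotientGroup.mk' N₀ z}).comap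
              (QuotientGroup.mk' N₀) := by
            rw [hM, Subgroup.closure_le]
            rintro _ ⟨i, hi, rfl⟩
            show QuotientGroup.mk' N₀ (sy A i v) ∈ Subgroup.centralizer {QuotientGroup.mk' N₀ z}
            rw [Subgroup.mem_centralizer_iff]
            intro w hw
            rw [Set.mem_singleton_iff.1 hw]
            exact (hy i hi).eq
          have hx2 := hc hx
          have hx3 : QuotientGroup.mk' N₀ z * QuotientGroup.mk' N₀ x =
              QuotientGroup.mk' N₀ x * QuotientGroup.mk' N₀ z :=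
            (Subgroup.mem_centralizer_iff.1 hx2) _ rfl
          rw [← hN₀, ← QuotientGroup.eq_one_iff]
          show QuotientGroup.mk' N₀ (z * x * z⁻¹ * x⁻¹) = 1
          rw [map_mul, map_mul, map_mul, hx3, map_inv, map_inv]
          group)
    refine ⟨S, T, a1, a2, by omega, fun x hx => ?_⟩
    apply Subtype.ext
    refine Pool.Agent.GeoOrig.germ_closure (hVo := hVo) (hVn := hVn) hσ ?_ hx x.2
    rintro y ⟨i, j, b1, b2, b3, rfl⟩
    exact (QuotientGroup.eq_one_iff _).1 (a4 i j b1 b2 b3)

end Pool.Agent.Results.MP_80bee4_ag.BoundedType
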