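import Pool.Agent.Lib.HypQ.BoxR

/-!
# Sheaves of low rank on the space of smooth hypersurfaces

In the application `P` is the tame fundamental group of the space `X` of smooth hypersurfaces of
degree `d` in projective `n`-space over an algebraic closure of a finite field of large
characteristic, and `K` is the algebraic closure of the field of `ℓ`-adic numbers.
-/

open Matrix Pool.Agent.HypLow

namespace Pool.Agent.Results.MP_80bee4_ag.HypersurfacesLowRank

variable {n : ℕ} {D : Fin n → ℕ}

/-- `x ≺ y` for points of a box: `y - x` is a nonzero vector with coordinates `0` and `1`. -/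
def Prec (x y : ∀ c, Fin (D c)) : Prop :=
  x ≠ y ∧ ∀ c, (x c).val ≤ (y c).val ∧ (y c).val ≤ (x c).val + 1

/-- Loenne's relations between the generators `t x` of the fundamental group of the complement of
the discriminant, indexed by the points `x` of a box: `t x` and `t y` commute if neither
`x ≺ y` nor `y ≺ x`, they satisfy the braid relation if `x ≺ y`, and
`t x * t y * t z * t x = t y * t z * t x * t y` if `x ≺ y`, `y ≺ z` and `x ≺ z`. -/
structure Loenne {P : Type*} [Group P] (t : (∀ c, Fin (D c)) → P) : Prop where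
  comm : ∀ x y, x ≠ y → ¬ Prec x y → ¬ Prec y x → t x * t y = t y * t x
  braid : ∀ x y, Prec x y → t x * t y * t x = t y * t x * t y
  tri : ∀ x y z, Prec x y → Prec y z → Prec x z → t x * t y * t z * t x = t y * t z * t x * t y

open Classical in
/-- The matrix `S + q Sᵀ`, where the entry `S x y` of `S` is `1` if `x = y` or `x ≺ y`, and `0`
otherwise. -/
noncomputable def pham {K : Type*} [Field K] (q : K) :
    Matrix (∀ c, Fin (D c)) (∀ c, Fin (D c)) K :=
  Matrix.of fun x y => if x = y then 1 + q else if Prec x y then 1 else if Prec y x then q else 0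

/-! ### From the box to integer points -/

/-- the integer point of a point of the box -/
def emb (x : ∀ c, Fin (D c)) : Fin n → ℤ := fun c => ((x c).val : ℤ)

/-- the point of the box of an integer point -/
def idx (hD : ∀ c, 0 < D c) (x : Fin n → ℤ) : ∀ c, Fin (D c) :=
  fun c => ⟨min (x c).toNat (D c - 1), by have := hD c; omega⟩

theorem emb_mem (x : ∀ c, Fin (D c)) :
    emb x ∈ Box (n := n) (fun _ => 0) (fun c => ((D c - 1 : ℕ) : ℤ)) := by
  intro c
  have := (x c).isLt
  show (0 : ℤ) ≤ ((x c).val : ℤ) ∧ ((x c).val : ℤ) ≤ ((D c - 1 : ℕ) : ℤ)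
  omega

theorem idx_emb (hD : ∀ c, 0 < D c) (x : ∀ c, Fin (D c)) : idx hD (emb x) = x := by
  funext c
  apply Fin.ext
  have := (x c).isLt
  show min (((x c).val : ℤ)).toNat (D c - 1) = (x c).val
  omega

theorem emb_idx (hD : ∀ c, 0 < D c) {x : Fin n → ℤ}
    (hx : x ∈ Box (n := n) (fun _ => 0) (fun c => ((D c - 1 : ℕ) : ℤ))) :
    emb (idx hD x) = x := by
  funext c
  have h : (0 : ℤ) ≤ x c ∧ x c ≤ ((D c - 1 : ℕ) : ℤ) := hx c
  show ((min (x c).toNat (D c - 1) : ℕ) : ℤ) = x c
  omega

theorem emb_inj {x y : ∀ c, Fin (D c)} (h : emb x = emb y) : x = y := by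
  funext c
  apply Fin.ext
  have h1 : ((x c).val : ℤ) = ((y c).val : ℤ) := congrFun h c
  exact_mod_cast h1

theorem lt_emb {x y : ∀ c, Fin (D c)} : Lt (emb x) (emb y) ↔ Prec x y := by
  constructor
  · rintro ⟨h1, h2⟩
    refine ⟨fun h => h1 (by rw [h]), fun c => ?_⟩
    have h3 : ((x c).val : ℤ) ≤ ((y c).val : ℤ) ∧ ((y c).val : ℤ) ≤ ((x c).val : ℤ) + 1 := h2 c
    omega
  · rintro ⟨h1, h2⟩
    refine ⟨fun h => h1 (emb_inj h), fun c => ?_⟩
    have h3 := h2 c
    show ((x c).val : ℤ) ≤ ((y c).val : ℤ) ∧ ((y c).val : ℤ) ≤ ((x c).val : ℤ) + 1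
    omega

theorem far_emb {x y : ∀ c, Fin (D c)} :
    Far (emb x) (emb y) ↔ x ≠ y ∧ ¬ Prec x y ∧ ¬ Prec y x := by
  constructor
  · rintro ⟨h1, h2⟩
    exact ⟨fun h => h1 (by rw [h]), fun h => h2 (Or.inl (lt_emb.2 h)),
      fun h => h2 (Or.inr (lt_emb.2 h))⟩
  · rintro ⟨h1, h2, h3⟩
    refine ⟨fun h => h1 (emb_inj h), fun h => ?_⟩
    rcases h with h | h
    · exact h2 (lt_emb.1 h)
    · exact h3 (lt_emb.1 h)

theorem Loenne.sys {P : Type*} [Group P] {t : (∀ c, Fin (D c)) → P} (ht : Loenne t) {M : Type*}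
    [Monoid M] (f : P →* M) (hD : ∀ c, 0 < D c) :
    Sys (Box (n := n) (fun _ => 0) (fun c => ((D c - 1 : ℕ) : ℤ)))
      (fun x => f (t (idx hD x))) where
  comm := by
    intro x hx y hy h
    rw [← emb_idx hD hx, ← emb_idx hD hy, far_emb] at h
    show f (t (idx hD x)) * f (t (idx hD y)) = f (t (idx hD y)) * f (t (idx hD x))
    rw [← map_mul, ← map_mul, ht.comm _ _ h.1 h.2.1 h.2.2]
  braid := by
    intro x hx y hy h
    rw [← emb_idx hD hx, ← emb_idx hD hy] at h
    show f (t (idx hD x)) * f (t (idx hD y)) * f (t (idx hD x)) =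
      f (t (idx hD y)) * f (t (idx hD x)) * f (t (idx hD y))
    rw [← map_mul, ← map_mul, ← map_mul, ← map_mul]
    rcases h with h | h
    · rw [ht.braid _ _ (lt_emb.1 h)]
    · rw [ht.braid _ _ (lt_emb.1 h)]
  tri := by
    intro x hx y hy z hz h1 h2 h3
    rw [← emb_idx hD hx, ← emb_idx hD hy, lt_emb] at h1
    rw [← emb_idx hD hy, ← emb_idx hD hz, lt_emb] at h2
    rw [← emb_idx hD hx, ← emb_idx hD hz, lt_emb] at h3
    show f (t (idx hD x)) * f (t (idx hD y)) * f (t (idx hD z)) * f (t (idx hD x)) =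
      f (t (idx hD y)) * f (t (idx hD z)) * f (t (idx hD x)) * f (t (idx hD y))
    rw [← map_mul, ← map_mul, ← map_mul, ← map_mul, ← map_mul, ← map_mul, ht.tri _ _ _ h1 h2 h3]

/-! ### Stable subspaces -/

section stable

variable {K : Type*} [Field K] {P : Type*} [Group P] {r : ℕ}

/-- the action on column vectors -/
noncomputable def act (ρ : P →* GL (Fin r) K) : P →* Module.End K (Fin r → K) where
  toFun g := Matrix.mulVecLin (ρ g : Matrix (Fin r) (Fin r) K)
  map_one' := by
    refine LinearMap.ext fun w => ?_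
    show (((ρ 1 : GL (Fin r) K)) : Matrix (Fin r) (Fin r) K) *ᵥ w = w
    rw [map_one, Units.val_one, Matrix.one_mulVec]
  map_mul' g h := by
    refine LinearMap.ext fun w => ?_
    show (((ρ (g * h) : GL (Fin r) K)) : Matrix (Fin r) (Fin r) K) *ᵥ w =
      (ρ g : Matrix (Fin r) (Fin r) K) *ᵥ ((ρ h : Matrix (Fin r) (Fin r) K) *ᵥ w)
    rw [map_mul, Units.val_mul, Matrix.mulVec_mulVec]

theorem act_apply (ρ : P →* GL (Fin r) K) (g : P) (w : Fin r → K) :
    act ρ g w = (ρ g : Matrix (Fin r) (Fin r) K) *ᵥ w := rfl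

theorem act_inj (ρ : P →* GL (Fin r) K) (g : P) : Function.Injective (act ρ g) := by
  intro v w h
  have h1 : act ρ g⁻¹ (act ρ g v) = act ρ g⁻¹ (act ρ g w) := by rw [h]
  rw [← Module.End.mul_apply, ← Module.End.mul_apply, ← map_mul, inv_mul_cancel, map_one] at h1
  exact h1

theorem inv_stable (ρ : P →* GL (Fin r) K) (g : P) (W : Submodule K (Fin r → K))
    (h : ∀ w ∈ W, act ρ g w ∈ W) : ∀ w ∈ W, act ρ g⁻¹ w ∈ W := by
  have h1 : Function.Injective ((act ρ g).restrict h) := by
    intro v w hvw
    apply Subtype.ext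
    apply act_inj ρ g
    have h2 := congrArg Subtype.val hvw
    exact h2
  have h3 := LinearMap.injective_iff_surjective.1 h1
  intro w hw
  obtain ⟨v, hv⟩ := h3 ⟨w, hw⟩
  have h4 : act ρ g v = w := congrArg Subtype.val hv
  rw [← h4, ← Module.End.mul_apply, ← map_mul, inv_mul_cancel, map_one]
  exact v.2

variable [TopologicalSpace K] [IsTopologicalRing K] [T2Space K] [TopologicalSpace P]
  [IsTopologicalGroup P]

omit [IsTopologicalGroup P] in
theorem isClosed_stable (ρ : P →* GL (Fin r) K) (hρ : Continuous ρ)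
    (W : Submodule K (Fin r → K)) (w : Fin r → K) : IsClosed {g : P | act ρ g w ∈ W} := by
  have h1 : {g : P | act ρ g w ∈ W} = ⋂ f ∈ (W.dualAnnihilator : Set (Module.Dual K (Fin r → K))),
      {g : P | f (act ρ g w) = 0} := by
    ext g
    rw [Set.mem_iInter₂]
    show act ρ g w ∈ W ↔ _
    exact (Subspace.forall_mem_dualAnnihilator_apply_eq_zero_iff W (act ρ g w)).symm
  rw [h1]
  refine isClosed_biInter fun f _ => ?_
  refine isClosed_eq ?_ continuous_const
  refine (LinearMap.continuous_on_pi f).comp ?_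
  have h2 : Continuous fun g : P => ((ρ g : GL (Fin r) K) : Matrix (Fin r) (Fin r) K) :=
    Units.continuous_val.comp hρ
  exact h2.matrix_mulVec continuous_const

theorem stable_all (ρ : P →* GL (Fin r) K) (hρ : Continuous ρ) {S : Set P}
    (hS : (Subgroup.closure S).topologicalClosure = ⊤) (W : Submodule K (Fin r → K))
    (hW : ∀ g ∈ S, ∀ w ∈ W, act ρ g w ∈ W) : ∀ g, ∀ w ∈ W, act ρ g w ∈ W := by
  let H : Subgroup P :=
    { carrier := {g | ∀ w ∈ W, act ρ g w ∈ W}
      one_mem' := fun w hw => by rw [map_one]; exact hw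
      mul_mem' := fun {a b} ha hb w hw => by
        rw [map_mul]
        exact ha _ (hb w hw)
      inv_mem' := fun {a} ha => inv_stable ρ a W ha }
  have hcl : IsClosed (H : Set P) := by
    have h1 : (H : Set P) = ⋂ w ∈ (W : Set (Fin r → K)), {g : P | act ρ g w ∈ W} := by
      ext g
      rw [Set.mem_iInter₂]
      rfl
    rw [h1]
    exact isClosed_biInter fun w _ => isClosed_stable ρ hρ W w
  have h2 : (Subgroup.closure S).topologicalClosure ≤ H :=
    Subgroup.topologicalClosure_minimal _ ((Subgroup.closure_le H).2 fun g hg => hW g hg) hcl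
  intro g
  have h3 : g ∈ (Subgroup.closure S).topologicalClosure := by rw [hS]; exact Subgroup.mem_top g
  exact h2 h3

end stable

/-! ### The theorem -/

theorem pham_self {K : Type*} [Field K] (q : K) (x : ∀ c, Fin (D c)) : pham q x x = 1 + q := by
  classical
  show (if x = x then 1 + q else if Prec x x then 1 else if Prec x x then q else 0) = 1 + q
  rw [if_pos rfl]

theorem pham_up {K : Type*} [Field K] (q : K) {x y : ∀ c, Fin (D c)} (h : Prec x y) :
    pham q x y = 1 := by
  classical
  show (if x = y then 1 + q else if Prec x y then 1 else if Prec y x then q else 0) = 1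
  rw [if_neg h.1, if_pos h]

theorem not_prec {x y : ∀ c, Fin (D c)} (h : Prec x y) : ¬ Prec y x := by
  intro h'
  apply h.1
  funext c
  apply Fin.ext
  have h1 := h.2 c
  have h2 := h'.2 c
  omega

theorem pham_down {K : Type*} [Field K] (q : K) {x y : ∀ c, Fin (D c)} (h : Prec y x) :
    pham q x y = q := by
  classical
  show (if x = y then 1 + q else if Prec x y then 1 else if Prec y x then q else 0) = q
  rw [if_neg h.1.symm, if_neg (not_prec h), if_pos h]

theorem pham_far {K : Type*} [Field K] (q : K) {x y : ∀ c, Fin (D c)} (h : x ≠ y)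
    (h1 : ¬ Prec x y) (h2 : ¬ Prec y x) : pham q x y = 0 := by
  classical
  show (if x = y then 1 + q else if Prec x y then 1 else if Prec y x then q else 0) = 0
  rw [if_neg h, if_neg h1, if_neg h2]

/-- Let `n ≥ 2`, let `d c ≥ 8` for `c = 1, …, n`, and let `P` be a topological group, topologically
generated by elements `t x`, indexed by the points `x` of the box `∏ {0, …, d c - 2}`, which satisfy
Loenne's relations between the standard generators of the fundamental group of the complement of
the discriminant of the singularity `x₁ ^ d₁ + ⋯ + xₙ ^ dₙ`. If all `d c` are equal to `d` they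
hold for the generators of the fundamental group of the space of smooth hypersurfaces of degree `d`
in projective `n`-space. Let `ρ : P → GL_r(K)` be a continuous irreducible representation over an
algebraically closed Hausdorff topological field. In the following products over `c` the index `a`
is left out. Suppose that the rank `r` is small, `r < (s (s - 1) / 2) (m ∏ (d c - 2)) ^ 2` for some
`s` and `m ≥ 4` with `s (m + 2) ≤ d a`, or that, without a bound for `r`, the rank of
`ρ (t x) - ν` is less than `(d a - 4) ∏ (d c - 2)` for some `x` and some scalar `ν`.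

Then `r = 1`, or `r ≥ ∏ (d c - 2)` and `ρ` is given by the `q`-Picard-Lefschetz formula: there are
`μ` and `q` in `K`, not zero, and nonzero vectors `u x` which span `K ^ r`, such that
`ρ (t x) (u y) = μ (u y - M x y • u x)` for all `x` and `y`, where `M` is the matrix `S + q Sᵀ` with
`S x y = 1` if `x = y` or `y - x` is a vector with coordinates `0` and `1`, and `S x y = 0`
otherwise. The linear relations between the vectors `u x` are the elements of the kernel of `M`. So
`r` is the rank of `M` and `ρ` is determined by `μ` and `q`. -/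
theorem result {K : Type*} [Field K] [IsAlgClosed K] [TopologicalSpace K] [IsTopologicalRing K]
    [T2Space K] {P : Type*} [Group P] [TopologicalSpace P] [IsTopologicalGroup P] {n r : ℕ}
    (hn : 2 ≤ n) (d : Fin n → ℕ) (hd : ∀ c, 8 ≤ d c) (t : (∀ c, Fin (d c - 1)) → P)
    (ht : Loenne t) (hgen : (Subgroup.closure (Set.range t)).topologicalClosure = ⊤)
    (ρ : P →* GL (Fin r) K) (hρ : Continuous ρ) (hr0 : 0 < r)
    (hirr : ∀ W : Submodule K (Fin r → K),
      (∀ g, ∀ w ∈ W, (ρ g : Matrix (Fin r) (Fin r) K) *ᵥ w ∈ W) → W = ⊥ ∨ W = ⊤)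
    (a : Fin n)
    (hr : (∃ s m : ℕ, 4 ≤ m ∧ s * (m + 2) ≤ d a ∧
        r < s * (s - 1) / 2 * (m * ∏ c ∈ Finset.univ.erase a, (d c - 2)) ^ 2) ∨
      ∃ x, ∃ ν : K, ((ρ (t x) : Matrix (Fin r) (Fin r) K) - ν • 1).rank <
        (d a - 4) * ∏ c ∈ Finset.univ.erase a, (d c - 2)) :
    r = 1 ∨ ∏ c, (d c - 2) ≤ r ∧ ∃ (μ q : K) (u : (∀ c, Fin (d c - 1)) → (Fin r → K)),
      μ ≠ 0 ∧ q ≠ 0 ∧ (∀ x, u x ≠ 0) ∧ Submodule.span K (Set.range u) = ⊤ ∧
      (∀ x y, (ρ (t x) : Matrix (Fin r) (Fin r) K) *ᵥ u y = μ • (u y - pham q x y • u x)) ∧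
      (∀ f : (∀ c, Fin (d c - 1)) → K, ∑ x, f x • u x = 0 ↔ pham q *ᵥ f = 0) ∧
      r = (pham (D := fun c => d c - 1) q).rank := by
  classical
  have hD : ∀ c, 0 < d c - 1 := fun c => by have := hd c; omega
  set B : Set (Fin n → ℤ) := Box (n := n) (fun _ => 0) (fun c => ((d c - 1 - 1 : ℕ) : ℤ)) with hB
  have hS : Sys B (fun x => act ρ (t (idx hD x))) := ht.sys (act ρ) hD
  have hinj : ∀ x ∈ B, Function.Injective (act ρ (t (idx hD x))) := fun x _ => act_inj ρ _
  have hirr2 : ∀ W : Submodule K (Fin r → K), (∀ x, ∀ w ∈ W, act ρ (t x) w ∈ W) →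
      W = ⊥ ∨ W = ⊤ := by
    intro W hW
    refine hirr W (stable_all ρ hρ hgen W ?_)
    rintro _ ⟨x, rfl⟩ w hw
    exact hW x w hw
  have hirr3 : ∀ W : Submodule K (Fin r → K),
      (∀ x ∈ B, ∀ w ∈ W, act ρ (t (idx hD x)) w ∈ W) → W = ⊥ ∨ W = ⊤ := by
    intro W hW
    refine hirr2 W fun x w hw => ?_
    have h := hW (emb x) (emb_mem x) w hw
    rwa [idx_emb] at h
  have hfin : Module.finrank K (Fin r → K) = r := by
    rw [Module.finrank_fintype_fun_eq_card, Fintype.card_fin]
  have hN2 : ∀ c, d c - 1 - 1 = d c - 2 := fun c => by omega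
  obtain ⟨b, hab⟩ : ∃ b : Fin n, a ≠ b := by
    by_cases h : a.val = 0
    · exact ⟨⟨1, by omega⟩, fun h' => by rw [h'] at h; exact absurd h (by norm_num)⟩
    · exact ⟨⟨0, by omega⟩, fun h' => h (by rw [h'])⟩
  have hmain : (∀ x ∈ B, ∀ y ∈ B, act ρ (t (idx hD x)) = act ρ (t (idx hD y))) ∨
      ∃ μ : K, μ ≠ 0 ∧ ∃ (q : K) (e : (Fin n → ℤ) → (Fin r → K)),
        Pham B (fun x => μ⁻¹ • act ρ (t (idx hD x)) - 1) q e := by
    have h6 : ∀ c, 6 ≤ (fun c => d c - 1 - 1) c := fun c => by
      have := hd c
      show 6 ≤ d c - 1 - 1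
      omega
    rcases hr with ⟨s, m, hm, hsm, hr⟩ | ⟨x, ν, hr⟩
    · have hr' : Module.finrank K (Fin r → K) <
          s * (s - 1) / 2 * (m * ∏ c ∈ Finset.univ.erase a, (d c - 1 - 1)) ^ 2 := by
        rw [hfin, Finset.prod_congr rfl fun c _ => hN2 c]
        exact hr
      exact box2 (N := fun c => d c - 1 - 1) h6 hab hm
        (by have := hd a; show s * (m + 2) ≤ d a - 1 - 1 + 2; omega) hinj hS hirr3 hr'
    · refine box_rank (N := fun c => d c - 1 - 1) h6 hab hinj hS hirr3
        ⟨emb x, emb_mem x, ν, ?_⟩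
      have h1 : (act ρ (t (idx hD (emb x))) - ν • (1 : Module.End K (Fin r → K)) :
          Module.End K (Fin r → K)) =
          Matrix.mulVecLin ((ρ (t x) : Matrix (Fin r) (Fin r) K) - ν • 1) := by
        rw [idx_emb]
        refine LinearMap.ext fun w => ?_
        show (ρ (t x) : Matrix (Fin r) (Fin r) K) *ᵥ w - ν • w =
          ((ρ (t x) : Matrix (Fin r) (Fin r) K) - ν • 1) *ᵥ w
        rw [Matrix.sub_mulVec, Matrix.smul_mulVec, Matrix.one_mulVec]
      rw [h1]
      have h2 : ∏ c ∈ Finset.univ.erase a, (d c - 1 - 1) =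
          ∏ c ∈ Finset.univ.erase a, (d c - 2) := Finset.prod_congr rfl fun c _ => hN2 c
      show ((ρ (t x) : Matrix (Fin r) (Fin r) K) - ν • 1).rank <
        (d a - 1 - 1 - 2) * ∏ c ∈ Finset.univ.erase a, (d c - 1 - 1)
      rw [h2]
      exact hr
  rcases hmain with hflat | ⟨μ, hμ, q, e, hP⟩
  · left
    have hne : Nontrivial (Fin r → K) := by
      rw [← Module.finrank_pos_iff (R := K), hfin]
      exact hr0
    have x0 : ∀ c, Fin (d c - 1) := fun c => ⟨0, hD c⟩
    have hall : ∀ x y, act ρ (t x) = act ρ (t y) := by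
      intro x y
      have h := hflat (emb x) (emb_mem x) (emb y) (emb_mem y)
      rwa [idx_emb, idx_emb] at h
    obtain ⟨c, hc⟩ := Module.End.exists_eigenvalue (act ρ (t x0))
    obtain ⟨v, hv⟩ := hc.exists_hasEigenvector
    have hv1 : act ρ (t x0) v = c • v := hv.apply_eq_smul
    rcases hirr2 (K ∙ v) (fun x w hw => by
      obtain ⟨a, rfl⟩ := Submodule.mem_span_singleton.1 hw
      rw [map_smul, hall x x0, hv1]
      exact Submodule.smul_mem _ _ (Submodule.smul_mem _ _ (Submodule.mem_span_singleton_self v)))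
      with h | h
    · exact absurd (Submodule.span_singleton_eq_bot.1 h) hv.2
    · have h1 := finrank_span_singleton (K := K) hv.2
      rw [h, finrank_top, hfin] at h1
      exact h1
  · right
    have hA : ∀ x w, (μ⁻¹ • act ρ (t (idx hD (emb x))) - 1 : Module.End K (Fin r → K)) w =
        μ⁻¹ • act ρ (t x) w - w := by
      intro x w
      rw [idx_emb]
      rfl
    have hmat : ∀ x y, μ⁻¹ • act ρ (t x) (e (emb y)) - e (emb y) =
        -(pham q x y • e (emb x)) := by
      intro x y
      rw [← hA]
      by_cases hxy : x = y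
      · subst hxy
        rw [pham_self]
        exact hP.self _ (emb_mem x)
      · by_cases h1 : Prec x y
        · rw [pham_up q h1, one_smul]
          exact hP.up _ (emb_mem x) _ (emb_mem y) (lt_emb.2 h1)
        · by_cases h2 : Prec y x
          · rw [pham_down q h2]
            exact hP.down _ (emb_mem y) _ (emb_mem x) (lt_emb.2 h2)
          · rw [pham_far q hxy h1 h2, zero_smul, neg_zero]
            exact hP.far _ (emb_mem x) _ (emb_mem y) (far_emb.2 ⟨hxy, h1, h2⟩)
    have hne : ∀ x : ∀ c, Fin (d c - 1), e (emb x) ≠ 0 := fun x => hP.ne _ (emb_mem x)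
    have hspan : Submodule.span K (Set.range fun x : ∀ c, Fin (d c - 1) => e (emb x)) = ⊤ := by
      rw [← hP.span]
      congr 1
      ext w
      constructor
      · rintro ⟨x, rfl⟩
        exact ⟨emb x, emb_mem x, rfl⟩
      · rintro ⟨x, hx, rfl⟩
        refine ⟨idx hD x, ?_⟩
        show e (emb (idx hD x)) = e x
        rw [emb_idx hD hx]
    -- the linear combinations
    have hsum : ∀ (c : (∀ c, Fin (d c - 1)) → K) (x : ∀ c, Fin (d c - 1)),
        μ⁻¹ • act ρ (t x) (∑ y, c y • e (emb y)) - ∑ y, c y • e (emb y) =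
          -((pham q *ᵥ c) x • e (emb x)) := by
      intro c x
      rw [map_sum, Finset.smul_sum, ← Finset.sum_sub_distrib]
      have h1 : ∀ y, μ⁻¹ • act ρ (t x) (c y • e (emb y)) - c y • e (emb y) =
          -((pham q x y * c y) • e (emb x)) := by
        intro y
        rw [map_smul, smul_comm, ← smul_sub, hmat, smul_neg, smul_smul, mul_comm]
      rw [Finset.sum_congr rfl fun y _ => h1 y, Finset.sum_neg_distrib, ← Finset.sum_smul]
      rfl
    have hker : ∀ c : (∀ c, Fin (d c - 1)) → K,
        ∑ x, c x • e (emb x) = 0 ↔ pham q *ᵥ c = 0 := by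
      intro c
      constructor
      · intro h
        funext x
        have h1 := hsum c x
        rw [h, map_zero, smul_zero, sub_zero] at h1
        have h2 : (pham q *ᵥ c) x • e (emb x) = 0 := neg_eq_zero.1 h1.symm
        rcases smul_eq_zero.1 h2 with h3 | h3
        · exact h3
        · exact absurd h3 (hne x)
      · intro h
        set w := ∑ x, c x • e (emb x) with hw
        let W : Submodule K (Fin r → K) :=
          { carrier := {v | ∀ x, act ρ (t x) v = μ • v}
            add_mem' := fun {a b} ha hb x => by rw [map_add, ha x, hb x, smul_add]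
            zero_mem' := fun x => by rw [map_zero, smul_zero]
            smul_mem' := fun a v hv x => by rw [map_smul, hv x, smul_comm] }
        have hwW : w ∈ W := by
          intro x
          have h1 := hsum c x
          rw [h, Pi.zero_apply, zero_smul, neg_zero, sub_eq_zero, ← hw] at h1
          have h1' : act ρ (t x) w = μ • (μ⁻¹ • act ρ (t x) w) := by
            rw [smul_smul, mul_inv_cancel₀ hμ, one_smul]
          rw [h1', h1]
        rcases hirr2 W (fun x v hv => by
          rw [hv x]
          exact W.smul_mem _ hv) with h2 | h2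
        · rw [h2] at hwW
          exact (Submodule.mem_bot K).1 hwW
        · exfalso
          let x0 : ∀ c, Fin (d c - 1) := fun c => ⟨0, hD c⟩
          let x1 : ∀ c, Fin (d c - 1) := fun c => ⟨1, by have := hd c; omega⟩
          have h01 : Prec x0 x1 := by
            refine ⟨fun h => ?_, fun c => ⟨Nat.zero_le _, le_refl _⟩⟩
            have h3 := congrArg Fin.val (congrFun h ⟨0, by omega⟩)
            exact absurd h3 (by norm_num [x0, x1])
          have h3 := hmat x0 x1
          have h4 : e (emb x1) ∈ W := by rw [h2]; exact Submodule.mem_top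
          rw [h4 x0, smul_smul, inv_mul_cancel₀ hμ, one_smul, sub_self, pham_up q h01,
            one_smul] at h3
          exact hne x0 (neg_eq_zero.1 h3.symm)
    refine ⟨?_, μ, q, fun x => e (emb x), hμ, hP.q0, hne, hspan, ?_, hker, ?_⟩
    · have h := hP.rank (fun c => by show (0 : ℤ) ≤ ((d c - 1 - 1 : ℕ) : ℤ); omega)
      rw [hfin] at h
      refine le_trans (le_of_eq (Finset.prod_congr rfl fun c _ => ?_)) h
      show d c - 2 = (((d c - 1 - 1 : ℕ) : ℤ) - 0).toNat
      omega
    · intro x y
      have h1 := hmat x y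
      have h2 : act ρ (t x) (e (emb y)) = μ • (e (emb y) + (μ⁻¹ • act ρ (t x) (e (emb y)) -
          e (emb y))) := by
        rw [add_sub_cancel, smul_smul, mul_inv_cancel₀ hμ, one_smul]
      rw [← act_apply, h2, h1, ← sub_eq_add_neg]
    · let L : ((∀ c, Fin (d c - 1)) → K) →ₗ[K] (Fin r → K) :=
        Fintype.linearCombination K fun x => e (emb x)
      have hL : ∀ c, L c = ∑ x, c x • e (emb x) := fun c => Fintype.linearCombination_apply K _ c
      have hLr : LinearMap.range L = ⊤ := by
        rw [Fintype.range_linearCombination]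
        exact hspan
      have hLk : LinearMap.ker L = LinearMap.ker (pham (D := fun c => d c - 1) q).mulVecLin := by
        ext c
        rw [LinearMap.mem_ker, LinearMap.mem_ker, hL, hker c]
        rfl
      have h1 := LinearMap.finrank_range_add_finrank_ker L
      have h2 := LinearMap.finrank_range_add_finrank_ker (pham (D := fun c => d c - 1) q).mulVecLin
      rw [hLr, finrank_top, hfin, hLk] at h1
      have h3 : (pham (D := fun c => d c - 1) q).rank =
        Module.finrank K (LinearMap.range (pham (D := fun c => d c - 1) q).mulVecLin) := rfl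
      omega

end Pool.Agent.Results.MP_80bee4_ag.HypersurfacesLowRank
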