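import Pool.Agent.Lib.Art.Act
import Pool.Agent.Lib.Art.Lantern
import Pool.Agent.Lib.Art.LeafOne
import Pool.Agent.Lib.Art.LeafQ

/-!
# Sheaves of low rank, and sheaves with small local monodromy, on the moduli spaces of curves

In the application `P` is the tame fundamental group of the moduli space of curves of genus `g`
with any number of marked points over an algebraic closure of a finite field, and `K` is the
algebraic closure of the field of `ℓ`-adic numbers.
-/

open Matrix Pool.Agent.Art

namespace Pool.Agent.Results.MP_80bee4_ag.ModuliCurvesLowRank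

/-- The oriented edges of the graph of the curves of Humphries' system: the curves `1, …, m` form a
chain, the curve `0` meets the curve `4` only, and each of the curves `m, m + 1, …` meets the curve
`m - 1` only. -/
def Arc (m x y : ℕ) : Prop :=
  (1 ≤ x ∧ y = x + 1 ∧ y ≤ m) ∨ (x + 1 = m ∧ m ≤ y) ∨ (x = 0 ∧ y = 4)

/-- The curves `x` and `y` meet (in one point). -/
def Meet (m x y : ℕ) : Prop := Arc m x y ∨ Arc m y x

/-- The pair `(p, q)` is conjugate to the pair of the twists `t 1`, `t 3`: `p` and `q` are twists
along two disjoint curves whose union does not separate the surface. -/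
def Apart {P : Type*} [Group P] {N : ℕ} (t : Fin (N + 1) → P) (p q : P) : Prop :=
  ∃ g : P, p = g * t 1 * g⁻¹ ∧ q = g * t 3 * g⁻¹

/-- A lantern relation `p * u * v * w = a * b * c` (seven twists) such that the six twists other
than `p` are apart from `q`. -/
def Lantern {P : Type*} [Group P] {N : ℕ} (t : Fin (N + 1) → P) (p q : P) : Prop :=
  ∃ a b c u v w : P, Apart t a q ∧ Apart t b q ∧ Apart t c q ∧ Apart t u q ∧ Apart t v q ∧
    Apart t w q ∧ p * u * v * w = a * b * c

/-- Relations between the Dehn twists `t x` along the curves of Humphries' system in the pure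
mapping class group of a surface with marked points: `t x` and `t y` commute if the curves `x`, `y`
do not meet, they satisfy the braid relation if the curves meet, and, for `x = 1` or `x ≥ m` and
for `y ≥ m`, the twist `t x` is in a lantern relation whose six other twists are apart from `t y`. -/
structure Twists {P : Type*} [Group P] (m : ℕ) {N : ℕ} (t : Fin (N + 1) → P) : Prop where
  comm : ∀ x y : Fin (N + 1), ¬ Meet m x y → t x * t y = t y * t x
  braid : ∀ x y : Fin (N + 1), Meet m x y → t x * t y * t x = t y * t x * t y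
  lantern : ∀ x y : Fin (N + 1), (x : ℕ) = 1 ∨ m ≤ x → m ≤ y → Lantern t (t x) (t y)

open Classical in
/-- The algebraic intersection numbers of the curves of Humphries' system. -/
noncomputable def inter (K : Type*) [Field K] (m x y : ℕ) : K :=
  if Arc m x y then 1 else if Arc m y x then -1 else 0

/-! ### Integer vertices -/

variable {m N : ℕ}

/-- the vertex of an integer -/
def idx (N : ℕ) (x : ℤ) : Fin (N + 1) := ⟨min x.toNat N, by omega⟩

theorem val_mem (x : Fin (N + 1)) : ((x.val : ℤ)) ∈ Set.Icc (0 : ℤ) N := by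
  have := x.isLt
  exact ⟨by omega, by omega⟩

theorem idx_val (x : Fin (N + 1)) : idx N (x.val : ℤ) = x := by
  apply Fin.ext
  have := x.isLt
  show min ((x.val : ℤ)).toNat N = x.val
  omega

theorem val_idx {x : ℤ} (hx : x ∈ Set.Icc (0 : ℤ) N) : ((idx N x).val : ℤ) = x := by
  obtain ⟨h1, h2⟩ := hx
  show ((min x.toNat N : ℕ) : ℤ) = x
  omega

theorem humL_idx {x y : ℤ} (hx : x ∈ Set.Icc (0 : ℤ) N) (hy : y ∈ Set.Icc (0 : ℤ) N) :
    humL m x y ↔ Meet m (idx N x) (idx N y) := by
  have h1 := val_idx hx
  have h2 := val_idx hy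
  unfold humL Meet Arc
  omega

theorem Twists.sys {P : Type*} [Group P] {t : Fin (N + 1) → P} (ht : Twists m t) {M : Type*}
    [Monoid M] (f : P →* M) : ASys (humL m) (Set.Icc (0 : ℤ) N) (fun x => f (t (idx N x))) where
  comm := by
    intro x hx y hy h
    show f (t (idx N x)) * f (t (idx N y)) = f (t (idx N y)) * f (t (idx N x))
    rw [← map_mul, ← map_mul, ht.comm _ _ (fun e => h.2 ((humL_idx hx hy).2 e))]
  braid := by
    intro x hx y hy h
    show f (t (idx N x)) * f (t (idx N y)) * f (t (idx N x)) =
      f (t (idx N y)) * f (t (idx N x)) * f (t (idx N y))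
    rw [← map_mul, ← map_mul, ← map_mul, ← map_mul, ht.braid _ _ ((humL_idx hx hy).1 h)]

theorem Apart.map {P : Type*} [Group P] {t : Fin (N + 1) → P} {p q : P} (h : Apart t p q)
    {M : Type*} [Monoid M] (f : P →* M) : Art.Apart (f (t 1)) (f (t 3)) (f p) (f q) := by
  obtain ⟨g, rfl, rfl⟩ := h
  refine ⟨f g, f g⁻¹, ?_, ?_, ?_, ?_⟩
  · rw [← map_mul, mul_inv_cancel, map_one]
  · rw [← map_mul, inv_mul_cancel, map_one]
  · rw [map_mul, map_mul]
  · rw [map_mul, map_mul]

theorem Lantern.map {P : Type*} [Group P] {t : Fin (N + 1) → P} {p q : P} (h : Lantern t p q)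
    {M : Type*} [Monoid M] (f : P →* M) : Lan (f (t 1)) (f (t 3)) (f p) (f q) := by
  obtain ⟨a, b, c, u, v, w, ha, hb, hc, hu, hv, hw, h⟩ := h
  refine ⟨f a, f b, f c, f u, f v, f w, ha.map f, hb.map f, hc.map f, hu.map f, hv.map f,
    hw.map f, ?_⟩
  rw [← map_mul, ← map_mul, ← map_mul, ← map_mul, ← map_mul, h]

/-- the vertex of Humphries' tree with the same homology class -/
def low (m x : ℕ) : ℤ := min x m

theorem low_mem (m x : ℕ) : low m x ∈ Set.Icc (0 : ℤ) m := by
  unfold low
  exact ⟨by omega, by omega⟩

theorem hmat_low {K : Type*} [Field K] (hm : 11 ≤ m) (x y : ℕ) :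
    hmat K (-1 : K) (low m x) (low m y) = inter K m x y := by
  classical
  unfold hmat inter
  by_cases c1 : Arc m x y
  · rw [if_pos c1]
    unfold Arc at c1
    unfold low
    rw [if_neg (by omega), if_pos (by omega)]
  · rw [if_neg c1]
    by_cases c2 : Arc m y x
    · rw [if_pos c2]
      unfold Arc at c1 c2
      unfold low
      rw [if_neg (by omega), if_neg (by omega), if_pos (by omega)]
    · rw [if_neg c2]
      unfold Arc at c1 c2
      unfold low
      by_cases c3 : min (x : ℤ) m = min (y : ℤ) m
      · rw [if_pos c3]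
        ring
      · rw [if_neg c3, if_neg (by omega), if_neg (by omega)]

/-- Let `m ≤ N` and let `P` be a topological group, topologically generated by elements
`t 0, …, t N` which satisfy the relations between the Dehn twists along the curves of Humphries'
system: `m = N = 2 g` for the mapping class group of a surface of genus `g` with at most one marked
point, and `m = 2 g + 1`, `N = 2 g + n - 1` for the pure mapping class group with `n ≥ 2` marked
points. Let `s ≥ 2`, `L ≥ 5`, `s (L + 1) ≤ m + 1`, and let `ρ : P → GL_r(K)`, `r > 0`, be a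
continuous irreducible representation over an algebraically closed Hausdorff topological field,
such that `r < s (s - 1) / 2 * (L - 1) ^ 2`, or such that `r` is arbitrary and, for some `x` and
some scalar `ν`, the rank of `ρ (t x) - ν` is less than `m - 7`.

Then `r = 1` and `ρ` is trivial, or `r = 2 g` and `ρ` is the first homology of the closed surface
with coefficients in `K`: there are nonzero vectors `u 0, …, u N` which span `K ^ r`, such that
`ρ (t x) (u y) = u y - ⟨x, y⟩ • u x`, where `⟨x, y⟩` is the algebraic intersection number, and the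
linear relations between the `u x` are the elements of the radical of the intersection form. -/
theorem result {K : Type*} [Field K] [IsAlgClosed K] [TopologicalSpace K] [IsTopologicalRing K]
    [T2Space K] {P : Type*} [Group P] [TopologicalSpace P] [IsTopologicalGroup P]
    {m N s L r : ℕ} (hs : 2 ≤ s) (hL : 5 ≤ L) (hm : s * (L + 1) ≤ m + 1) (hN : m ≤ N)
    (t : Fin (N + 1) → P) (ht : Twists m t)
    (hgen : (Subgroup.closure (Set.range t)).topologicalClosure = ⊤)
    (ρ : P →* GL (Fin r) K) (hρ : Continuous ρ) (hr0 : 0 < r)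
    (hr : r < s * (s - 1) / 2 * (L - 1) ^ 2 ∨
      ∃ (x : Fin (N + 1)) (ν : K), ((ρ (t x) : Matrix (Fin r) (Fin r) K) - ν • 1).rank < m - 7)
    (hirr : ∀ W : Submodule K (Fin r → K),
      (∀ g, ∀ w ∈ W, (ρ g : Matrix (Fin r) (Fin r) K) *ᵥ w ∈ W) → W = ⊥ ∨ W = ⊤) :
    (r = 1 ∧ ∀ g, ρ g = 1) ∨ r = 2 * (m / 2) ∧ ∃ u : Fin (N + 1) → (Fin r → K),
      (∀ x, u x ≠ 0) ∧ Submodule.span K (Set.range u) = ⊤ ∧
      (∀ x y, (ρ (t x) : Matrix (Fin r) (Fin r) K) *ᵥ u y = u y - inter K m x y • u x) ∧
      ∀ c : Fin (N + 1) → K, ∑ x, c x • u x = 0 ↔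
        ∀ x : Fin (N + 1), ∑ y : Fin (N + 1), inter K m x y * c y = 0 := by
  classical
  have hm0 : 11 ≤ m := by
    have h1 : 2 * 6 ≤ s * (L + 1) := Nat.mul_le_mul hs (by omega)
    omega
  have hm11 : (11 : ℤ) ≤ m := by omega
  have hNz : (m : ℤ) ≤ N := by omega
  set T : ℤ → Module.End K (Fin r → K) := fun x => act ρ (t (idx N x)) with hT
  have hS : ASys (humL m) (Set.Icc (0 : ℤ) N) T := ht.sys (act ρ)
  have hinj : ∀ x ∈ Set.Icc (0 : ℤ) N, Function.Injective (T x) := fun x _ => act_inj ρ _
  have hTx : ∀ x : Fin (N + 1), T (x.val : ℤ) = act ρ (t x) := by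
    intro x
    show act ρ (t (idx N (x.val : ℤ))) = act ρ (t x)
    rw [idx_val]
  have hirr2 : ∀ W : Submodule K (Fin r → K), (∀ x, ∀ w ∈ W, act ρ (t x) w ∈ W) →
      W = ⊥ ∨ W = ⊤ := by
    intro W hW
    refine hirr W (stable_all ρ hρ hgen W ?_)
    rintro _ ⟨x, rfl⟩ w hw
    exact hW x w hw
  have hirr3 : ∀ W : Submodule K (Fin r → K),
      (∀ x ∈ Set.Icc (0 : ℤ) N, ∀ w ∈ W, T x w ∈ W) → W = ⊥ ∨ W = ⊤ := by
    intro W hW
    refine hirr2 W fun x w hw => ?_
    have h := hW x.val (val_mem x) w hw
    rwa [hTx x] at h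
  have hfin : Module.finrank K (Fin r → K) = r := by
    rw [Module.finrank_fintype_fun_eq_card, Fintype.card_fin]
  have hnt : Nontrivial (Fin r → K) := by
    rw [← Module.finrank_pos_iff (R := K), hfin]
    exact hr0
  -- the lantern relations
  have hT1 : T 1 = act ρ (t 1) := by
    have h := hTx 1
    have e : ((1 : Fin (N + 1)).val : ℤ) = 1 := by
      have : (1 : Fin (N + 1)).val = 1 := by
        rw [Fin.val_one']
        exact Nat.mod_eq_of_lt (by omega)
      rw [this]
      rfl
    rwa [e] at h
  have hT3 : T 3 = act ρ (t 3) := by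
    have h := hTx 3
    have e : ((3 : Fin (N + 1)).val : ℤ) = 3 := by
      have : (3 : Fin (N + 1)).val = 3 := by
        show 3 % (N + 1) = 3
        exact Nat.mod_eq_of_lt (by omega)
      rw [this]
      rfl
    rwa [e] at h
  have hLan : ∀ x ∈ Set.Icc (0 : ℤ) N, x = 1 ∨ (m : ℤ) ≤ x → ∀ y ∈ Set.Icc (m : ℤ) N,
      Lan (T 1) (T 3) (T x) (T y) := by
    intro x hx hx1 y hy
    have hy0 : y ∈ Set.Icc (0 : ℤ) N := ⟨by have := hy.1; omega, hy.2⟩
    have h := (ht.lantern (idx N x) (idx N y) (by
      have := val_idx hx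
      omega) (by
      have h1 := val_idx hy0
      have h2 := hy.1
      omega)).map (act ρ)
    rw [hT1, hT3]
    exact h
  -- all twists are equal, or no two adjacent ones are
  rcases Classical.em (∀ x ∈ Set.Icc (0 : ℤ) m, ∀ y ∈ Set.Icc (0 : ℤ) m, T x = T y) with
    hflat | hnf
  · left
    have hall' : ∀ x ∈ Set.Icc (0 : ℤ) N, T x = T 1 := by
      intro x hx
      by_cases e : x ≤ m
      · exact hflat x ⟨hx.1, e⟩ 1 ⟨by omega, by omega⟩
      · have hxm : x ∈ Set.Icc (m : ℤ) N := ⟨by omega, hx.2⟩
        by_contra hne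
        have h1 := edge_neT (t := lf T m x) hm11 (Or.inl rfl) (fun z hz => by
          unfold lf
          by_cases e2 : z = m
          · rw [if_pos e2]
            exact hinj x hx
          · rw [if_neg e2]
            exact hinj z ⟨hz.1, hz.2.trans hNz⟩) (lf_sys hm11 hS hxm)
          ⟨m, ⟨by omega, le_rfl⟩, 1, ⟨by omega, by omega⟩, by
            unfold lf
            rw [if_pos rfl, if_neg (by omega)]
            exact hne⟩ 1 ⟨by omega, by omega⟩ 2 ⟨by omega, by omega⟩ (by
            unfold hum
            omega)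
        apply h1
        unfold lf
        rw [if_neg (by omega), if_neg (by omega)]
        exact hflat 1 ⟨by omega, by omega⟩ 2 ⟨by omega, by omega⟩
    have hall : ∀ x, act ρ (t x) = act ρ (t 1) := by
      intro x
      have h := hall' x.val (val_mem x)
      rwa [hTx, hT1] at h
    obtain ⟨k, hk⟩ := Module.End.exists_eigenvalue (act ρ (t 1))
    obtain ⟨v, hv⟩ := hk.exists_hasEigenvector
    have hv1 : act ρ (t 1) v = k • v := hv.apply_eq_smul
    have htop : (K ∙ v) = ⊤ := by
      rcases hirr2 (K ∙ v) (fun x w hw => by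
        obtain ⟨a, rfl⟩ := Submodule.mem_span_singleton.1 hw
        rw [map_smul, hall x, hv1]
        exact Submodule.smul_mem _ _ (Submodule.smul_mem _ _ (Submodule.mem_span_singleton_self v)))
        with h | h
      · exact absurd (Submodule.span_singleton_eq_bot.1 h) hv.2
      · exact h
    have hscal : ∀ w, act ρ (t 1) w = k • w := by
      intro w
      have hw : w ∈ (K ∙ v) := by rw [htop]; exact Submodule.mem_top
      obtain ⟨a, rfl⟩ := Submodule.mem_span_singleton.1 hw
      rw [map_smul, hv1, smul_comm]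
    have hap : ∀ p q : P, Apart t p q → ∀ w, act ρ p w = k • w := by
      rintro p q ⟨g, rfl, -⟩ w
      rw [map_mul, map_mul]
      show act ρ g (act ρ (t 1) (act ρ g⁻¹ w)) = k • w
      rw [hscal, map_smul]
      have := LinearMap.congr_fun (act_mul_inv ρ g) w
      simp only [Module.End.mul_apply, Module.End.one_apply] at this
      rw [this]
    have hk0 : k ≠ 0 := by
      rintro rfl
      rw [zero_smul] at hv1
      exact hv.2 (act_inj ρ (t 1) (by rw [hv1, map_zero]))
    have hk1 : k = 1 := by
      obtain ⟨a, b, c, x, y, z, ha, hb, hc, hx, hy, hz, h⟩ :=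
        ht.lantern 1 (idx N m) (Or.inl (by
          rw [Fin.val_one']
          exact Nat.mod_eq_of_lt (by omega))) (by
          have h1 := val_idx (N := N) (x := (m : ℤ)) ⟨by omega, hNz⟩
          omega)
      have h1 := congrArg (fun g => act ρ g v) h
      simp only [map_mul, Module.End.mul_apply, hap _ _ ha, hap _ _ hb, hap _ _ hc, hap _ _ hx,
        hap _ _ hy, hap _ _ hz, hscal, smul_smul] at h1
      have h4 : (k * (k * (k * k)) - k * (k * k)) • v = 0 := by
        rw [sub_smul, sub_eq_zero]
        simpa only [mul_assoc, map_smul, smul_smul, hscal] using h1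
      have h5 : k * (k * k) * (k - 1) = 0 := by
        rcases smul_eq_zero.1 h4 with h5 | h5
        · rw [← h5]; ring
        · exact absurd h5 hv.2
      rcases mul_eq_zero.1 h5 with h6 | h6
      · exact absurd h6 (mul_ne_zero hk0 (mul_ne_zero hk0 hk0))
      · exact sub_eq_zero.1 h6
    refine ⟨?_, trivial_all ρ hρ hgen ?_⟩
    · have h1 := finrank_span_singleton (K := K) hv.2
      rw [htop, finrank_top, hfin] at h1
      exact h1
    · rintro _ ⟨x, rfl⟩
      refine eq_one_of_act ρ (t x) (LinearMap.ext fun w => ?_)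
      rw [hall x, hscal w, hk1, one_smul]
      rfl
  · right
    push Not at hnf
    -- (Q) for all leaves
    have hQ : ∀ y ∈ Set.Icc (m : ℤ) N, QQ (lf T m y) m := by
      intro y hy
      have hy0 : y ∈ Set.Icc (0 : ℤ) N := ⟨by have := hy.1; omega, hy.2⟩
      have hinjy : ∀ z ∈ Set.Icc (0 : ℤ) m, Function.Injective ⇑(lf T (m : ℤ) y z) := by
        intro z hz
        unfold lf
        by_cases e2 : z = m
        · rw [if_pos e2]
          exact hinj y hy0
        · rw [if_neg e2]
          exact hinj z ⟨hz.1, hz.2.trans hNz⟩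
      rcases hr with hr | ⟨x, ν, hr⟩
      · exact qq_of_dim hs hL hm hinjy (lf_sys hm11 hS hy) (by rw [hfin]; exact hr)
      · have hrk : (Module.finrank K (LinearMap.range (T x.val - ν • (1 : Module.End K _))) : ℤ) <
            m - 7 := by
          rw [hTx]
          have e : act ρ (t x) - ν • (1 : Module.End K (Fin r → K)) =
              Matrix.mulVecLin ((ρ (t x) : Matrix (Fin r) (Fin r) K) - ν • 1) := by
            refine LinearMap.ext fun w => ?_
            show (ρ (t x) : Matrix (Fin r) (Fin r) K) *ᵥ w - ν • w =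
              ((ρ (t x) : Matrix (Fin r) (Fin r) K) - ν • 1) *ᵥ w
            rw [Matrix.sub_mulVec, Matrix.smul_mulVec, Matrix.one_mulVec]
          rw [e]
          have h1 : Module.finrank K (LinearMap.range
              (Matrix.mulVecLin ((ρ (t x) : Matrix (Fin r) (Fin r) K) - ν • 1))) < m - 7 := hr
          omega
        obtain ⟨x0, hx0, hx0m, hrk0⟩ : ∃ x0 : ℤ, 0 ≤ x0 ∧ x0 < m ∧
            (Module.finrank K (LinearMap.range (T x0 - ν • (1 : Module.End K _))) : ℤ) <
              m - 7 := by
          by_cases e : (x.val : ℤ) < m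
          · exact ⟨x.val, by omega, e, hrk⟩
          · refine ⟨m - 1, by omega, by omega, ?_⟩
            have hmm : ((m : ℤ) - 1) ∈ Set.Icc (0 : ℤ) N := ⟨by omega, by omega⟩
            rw [rank_edge (hinj _ hmm) (hinj _ (val_mem x)) (hS.braid _ hmm _ (val_mem x) (by
              unfold humL
              omega)) ν]
            exact hrk
        refine qq_of_rank (x := x0) (ν := ν) (by omega) hinjy (lf_sys hm11 hS hy)
          ⟨hx0, by omega⟩ ?_
        have e : lf T m y x0 = T x0 := by
          unfold lf
          rw [if_neg (by omega)]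
        rw [e]
        exact hrk0
    -- `μ = 1`, all leaves are equal
    obtain ⟨μ, hμ, hfar⟩ := far_leaf hm11 hNz hinj hS hirr3 hnf hQ
    obtain ⟨-, hsq, hleaf⟩ := leaf_one hm11 hNz hinj hS hirr3 hnf hLan hμ hfar
    have hmN : (m : ℤ) ∈ Set.Icc (m : ℤ) N := ⟨le_rfl, hNz⟩
    have hlfm : lf T (m : ℤ) (m : ℤ) = T := by
      funext x
      unfold lf
      by_cases e : x = m
      · rw [if_pos e, e]
      · rw [if_neg e]
    have hirr4 : ∀ W : Submodule K (Fin r → K),
        (∀ x ∈ Set.Icc (0 : ℤ) m, ∀ w ∈ W, T x w ∈ W) → W = ⊥ ∨ W = ⊤ := by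
      intro W hW
      refine hirr3 W fun x hx w hw => ?_
      by_cases e : x ≤ m
      · exact hW x ⟨hx.1, e⟩ w hw
      · rw [hleaf x ⟨by omega, hx.2⟩]
        exact hW m ⟨by omega, le_rfl⟩ w hw
    have hSm : ASys hum (Set.Icc (0 : ℤ) m) T := by
      have h := lf_sys hm11 hS hmN
      rwa [hlfm] at h
    have hQm : QQ T m := by
      have h := hQ m hmN
      rwa [hlfm] at h
    have hinjm : ∀ x ∈ Set.Icc (0 : ℤ) m, Function.Injective (T x) :=
      fun x hx => hinj x ⟨hx.1, hx.2.trans hNz⟩
    obtain ⟨μ', q, e, hμ', hq, hdim, hne, hspan, hform⟩ :=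
      tree_of_qq (m := m) (by omega) hinjm hSm hirr4 hnf hQm
    have m1 : (1 : ℤ) ∈ Set.Icc (0 : ℤ) m := ⟨by omega, by omega⟩
    have m3 : (3 : ℤ) ∈ Set.Icc (0 : ℤ) m := ⟨by omega, by omega⟩
    have hsqv : ∀ w, T 1 (T 1 w - w) = T 1 w - w := by
      intro w
      have h := LinearMap.congr_fun (hsq 1 ⟨by omega, by omega⟩) w
      exact sub_eq_zero.1 h
    have hμ1 : μ' = 1 := by
      have h1 := hform 1 m1 3 m3
      have e1 : hmat K q 1 3 = 0 := by
        unfold hmat
        rw [if_neg (by omega), if_neg (by omega), if_neg (by omega)]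
      rw [e1, zero_smul, sub_zero] at h1
      have h2 := hsqv (e 3)
      rw [h1] at h2
      have h3 : μ' • e 3 - e 3 = (μ' - 1) • e 3 := by rw [sub_smul, one_smul]
      rw [h3, map_smul, h1] at h2
      have h4 : ((μ' - 1) * (μ' - 1)) • e 3 = 0 := by
        rw [smul_smul] at h2
        have h5 : ((μ' - 1) * (μ' - 1)) = (μ' - 1) * μ' - (μ' - 1) := by ring
        rw [h5, sub_smul, h2, sub_self]
      rcases smul_eq_zero.1 h4 with h5 | h5
      · exact sub_eq_zero.1 (mul_self_eq_zero.1 h5)
      · exact absurd h5 (hne 3 m3)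
    subst hμ1
    simp only [one_smul] at hform
    have hq1 : q = -1 := by
      have h1 := hform 1 m1 1 m1
      have e1 : hmat K q 1 1 = 1 + q := by
        unfold hmat
        rw [if_pos rfl]
      rw [e1] at h1
      have h2 := hsqv (e 1)
      rw [h1] at h2
      have h3 : e 1 - (1 + q) • e 1 - e 1 = (-(1 + q)) • e 1 := by
        rw [neg_smul]
        abel
      rw [h3, map_smul, h1] at h2
      have h4 : ((1 + q) * (1 + q)) • e 1 = 0 := by
        rw [smul_sub, smul_smul] at h2
        have h5 : ((1 + q) * (1 + q)) • e 1 = (-(1 + q)) • e 1 - (-(1 + q) * (1 + q)) • e 1 -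
            (-(1 + q)) • e 1 := by
          rw [← sub_smul, ← sub_smul]
          congr 1
          ring
        rw [h5, h2, sub_self]
      rcases smul_eq_zero.1 h4 with h5 | h5
      · exact (neg_eq_of_add_eq_zero_right (mul_self_eq_zero.1 h5)).symm
      · exact absurd h5 (hne 1 m1)
    subst hq1
    -- the vectors
    have hTlow : ∀ x : Fin (N + 1), act ρ (t x) = T (low m x) := by
      intro x
      rw [← hTx]
      unfold low
      by_cases e : (x.val : ℤ) ≤ m
      · rw [min_eq_left e]
      · rw [min_eq_right (by omega)]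
        exact hleaf _ ⟨by omega, (val_mem x).2⟩
    have hform1 : ∀ x y : Fin (N + 1), act ρ (t x) (e (low m y)) =
        e (low m y) - inter K m x y • e (low m x) := by
      intro x y
      rw [hTlow, hform _ (low_mem m x) _ (low_mem m y), hmat_low (by omega)]
    have hrange : (Set.range fun x : Fin (N + 1) => e (low m x)) = e '' Set.Icc (0 : ℤ) m := by
      ext w
      constructor
      · rintro ⟨x, rfl⟩
        exact ⟨low m x, low_mem m x, rfl⟩
      · rintro ⟨x, hx, rfl⟩
        refine ⟨idx N x, ?_⟩
        have h1 := val_idx (N := N) (x := x) ⟨hx.1, hx.2.trans hNz⟩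
        show e (low m (idx N x)) = e x
        unfold low
        rw [h1, min_eq_left hx.2]
    have hdimeq : (Module.finrank K (Fin r → K) : ℤ) = 2 * ((m : ℤ) / 2) := by
      refine finrank_symp (m := m) (by omega) (A := fun x => T x - 1) ?_ hne hspan ?_
      · intro W hW
        refine hirr4 W fun x hx w hw => ?_
        have h := W.add_mem (hW x hx w hw) hw
        have e1 : (T x - 1 : Module.End K (Fin r → K)) w + w = T x w := by
          show T x w - w + w = T x w
          rw [sub_add_cancel]
        rwa [e1] at h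
      · intro x hx y hy
        show T x (e y) - e y = _
        rw [hform x hx y hy]
        abel
    rw [hfin] at hdimeq
    refine ⟨by omega, fun x => e (low m x), fun x => hne _ (low_mem m x), by rw [hrange, hspan],
      fun x y => hform1 x y, ?_⟩
    -- the linear relations
    have hsum : ∀ (c : Fin (N + 1) → K) (x : Fin (N + 1)),
        act ρ (t x) (∑ y, c y • e (low m y)) - ∑ y, c y • e (low m y) =
          -((∑ y : Fin (N + 1), inter K m x y * c y) • e (low m x)) := by
      intro c x
      rw [map_sum, ← Finset.sum_sub_distrib, Finset.sum_smul, ← Finset.sum_neg_distrib]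
      refine Finset.sum_congr rfl fun y _ => ?_
      rw [map_smul, hform1, smul_sub, sub_sub_cancel_left, smul_smul, mul_comm]
    intro c
    constructor
    · intro h x
      have h1 := hsum c x
      rw [h, map_zero, sub_zero] at h1
      have h2 : (∑ y : Fin (N + 1), inter K m x y * c y) • e (low m x) = 0 :=
        neg_eq_zero.1 h1.symm
      rcases smul_eq_zero.1 h2 with h3 | h3
      · exact h3
      · exact absurd h3 (hne _ (low_mem m x))
    · intro h
      set w := ∑ x : Fin (N + 1), c x • e (low m x) with hw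
      let W : Submodule K (Fin r → K) :=
        { carrier := {v | ∀ x, act ρ (t x) v = v}
          add_mem' := fun {a b} ha hb x => by rw [map_add, ha x, hb x]
          zero_mem' := fun x => by rw [map_zero]
          smul_mem' := fun a v hv x => by rw [map_smul, hv x] }
      have hwW : w ∈ W := by
        intro x
        have h1 := hsum c x
        rw [h x, zero_smul, neg_zero, sub_eq_zero] at h1
        exact h1
      rcases hirr2 W (fun x v hv => by
        rw [hv x]
        exact hv) with h2 | h2
      · rw [h2] at hwW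
        exact (Submodule.mem_bot K).1 hwW
      · exfalso
        let x1 : Fin (N + 1) := ⟨1, by omega⟩
        let x2 : Fin (N + 1) := ⟨2, by omega⟩
        have h4 : e (low m x2) ∈ W := by rw [h2]; exact Submodule.mem_top
        have h5 := hform1 x1 x2
        rw [h4 x1] at h5
        have h6 : inter K m x1 x2 = 1 := by
          unfold inter
          have h7 : Arc m x1 x2 := Or.inl ⟨by show 1 ≤ 1; omega, by show 2 = 1 + 1; omega, by
            show 2 ≤ m; omega⟩
          rw [if_pos h7]
        rw [h6, one_smul] at h5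
        have h7 : e (low m x1) = 0 := sub_eq_self.1 h5.symm
        exact hne _ (low_mem m x1) h7

end Pool.Agent.Results.MP_80bee4_ag.ModuliCurvesLowRank
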